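import Pool.Agent.PFC.StmtsB5a

/-!
Squad PFC, block B5a, rows CUGa, BKIa, NILa (helper49).
-/

namespace Pool.Agent.PFC.H49d

open Pool.Agent.PFC Pool.Agent.PFC.B5a

open scoped BigOperators

/-- BKI: the Brauer kernel is an ideal of the centraliser. -/
theorem bki : BkiStmt := by
  intro F V A _ _ _ _ _ α Q
  classical
  have h1 : ∀ a : A, a ∈ Fx (cj F α) Q ↔ a ∈ Cz F α Q := by
    intro a
    rw [mem_Fx, Cz, Subalgebra.mem_centralizer_iff]
    have hu : ∀ h : V, α h⁻¹ * α h = 1 := by
      intro h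
      rw [← map_mul, inv_mul_cancel, map_one]
    have hu' : ∀ h : V, α h * α h⁻¹ = 1 := by
      intro h
      rw [← map_mul, mul_inv_cancel, map_one]
    constructor
    · rintro h _ ⟨u, hu1, rfl⟩
      have h2 : α u * (a * α u⁻¹) = a := h u hu1
      calc α u * a = α u * (a * (α u⁻¹ * α u)) := by rw [hu, mul_one]
        _ = (α u * (a * α u⁻¹)) * α u := by simp only [mul_assoc]
        _ = a * α u := by rw [h2]
    · intro h u hu1
      show α u * (a * α u⁻¹) = a
      have h2 : α u * a = a * α u := h (α u) ⟨u, hu1, rfl⟩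
      rw [← mul_assoc, h2, mul_assoc, hu', mul_one]
  refine ⟨h1, ?_, ?_⟩
  · intro a ha
    exact (h1 a).1 (BK_le_Fx _ _ ha)
  · intro a ha n hn
    have hcom : ∀ u ∈ Q, α u * a = a * α u := by
      rw [Cz, Subalgebra.mem_centralizer_iff] at ha
      intro u hu
      exact ha (α u) ⟨u, hu, rfl⟩
    have key : ∀ u ∈ Q, ∀ m : A, cj F α u (a * m) = a * cj F α u m ∧
        cj F α u (m * a) = cj F α u m * a := by
      intro u hu m
      have h3 : a * α u⁻¹ = α u⁻¹ * a := (hcom u⁻¹ (Q.inv_mem hu)).symm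
      constructor
      · show α u * (a * m * α u⁻¹) = a * (α u * (m * α u⁻¹))
        calc α u * (a * m * α u⁻¹) = (α u * a) * (m * α u⁻¹) := by simp only [mul_assoc]
          _ = _ := by rw [hcom u hu, mul_assoc]
      · show α u * (m * a * α u⁻¹) = α u * (m * α u⁻¹) * a
        rw [mul_assoc m, h3]
        simp only [mul_assoc]
    unfold BK at hn ⊢
    induction hn using Submodule.span_induction with
    | mem n hn =>
      obtain ⟨P', S, m, hlt, hS, hm, rfl⟩ := hn
      constructor
      · apply Submodule.subset_span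
        refine ⟨P', S, a * m, hlt, hS, ?_, ?_⟩
        · intro u hu
          rw [(key u (hlt.le hu) m).1, hm u hu]
        · rw [Finset.mul_sum]
          exact Finset.sum_congr rfl (fun x hx => ((key x (hS.1 x hx) m).1).symm)
      · apply Submodule.subset_span
        refine ⟨P', S, m * a, hlt, hS, ?_, ?_⟩
        · intro u hu
          rw [(key u (hlt.le hu) m).2, hm u hu]
        · rw [Finset.sum_mul]
          exact Finset.sum_congr rfl (fun x hx => ((key x (hS.1 x hx) m).2).symm)
    | zero =>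
      rw [mul_zero, zero_mul]
      exact ⟨Submodule.zero_mem _, Submodule.zero_mem _⟩
    | add x y _ _ hx hy =>
      rw [mul_add, add_mul]
      exact ⟨Submodule.add_mem _ hx.1 hy.1, Submodule.add_mem _ hx.2 hy.2⟩
    | smul r x _ hx =>
      rw [mul_smul_comm, smul_mul_assoc]
      exact ⟨Submodule.smul_mem _ _ hx.1, Submodule.smul_mem _ _ hx.2⟩

theorem sum_coe {F G : Type} [Field F] [Group G] [Fintype G] (x : MonoidAlgebra F G) :
    ∑ g : G, x.coeff g • MonoidAlgebra.of F G g = x := by
  classical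
  ext g
  rw [MonoidAlgebra.coeff_sum, Finsupp.finsetSum_apply, Finset.sum_eq_single g]
  · rw [MonoidAlgebra.coeff_smul_apply, MonoidAlgebra.of_apply, MonoidAlgebra.coeff_single,
      Finsupp.single_eq_same, smul_eq_mul, mul_one]
  · intro h _ hh
    rw [MonoidAlgebra.coeff_smul_apply, MonoidAlgebra.of_apply, MonoidAlgebra.coeff_single,
      Finsupp.single_eq_of_ne (Ne.symm hh), smul_zero]
  · intro h
    exact absurd (Finset.mem_univ g) h

/-- NIL: the augmentation ideal is nilpotent. -/
theorem nil : NilStmt := by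
  intro ℓ _ F V _ _ _ _ hV
  classical
  have hchar : CharP (MonoidAlgebra F V) ℓ :=
    charP_of_injective_algebraMap (FaithfulSMul.algebraMap_injective F (MonoidAlgebra F V)) ℓ
  obtain ⟨k, hk⟩ := (IsPGroup.iff_card).1 hV
  have hau : ∀ u : V, au F V (MonoidAlgebra.of F V u) = 1 := by
    intro u
    show MonoidAlgebra.lift F F V 1 (MonoidAlgebra.of F V u) = 1
    rw [MonoidAlgebra.lift_of]
    rfl
  have hspan : RingHom.ker (au F V) =
      Ideal.span (Set.range (fun u : V => MonoidAlgebra.of F V u - 1)) := by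
    apply le_antisymm
    · intro x hx
      have hx0 : au F V x = 0 := hx
      have h1 : ∑ u : V, x.coeff u = 0 := by
        have h2 := congrArg (au F V) (sum_coe x)
        rw [map_sum, hx0] at h2
        rw [← h2]
        refine Finset.sum_congr rfl ?_
        intro u _
        rw [map_smul, hau, smul_eq_mul, mul_one]
      have h3 : x = ∑ u : V, x.coeff u • (MonoidAlgebra.of F V u - 1) := by
        simp only [smul_sub]
        rw [Finset.sum_sub_distrib, sum_coe, ← Finset.sum_smul, h1, zero_smul, sub_zero]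
      rw [h3]
      refine Ideal.sum_mem _ ?_
      intro u _
      rw [Algebra.smul_def]
      exact Ideal.mul_mem_left _ _ (Ideal.subset_span ⟨u, rfl⟩)
    · rw [Ideal.span_le]
      rintro _ ⟨u, rfl⟩
      show au F V (MonoidAlgebra.of F V u - 1) = 0
      rw [map_sub, hau, map_one, sub_self]
  have hfg : (RingHom.ker (au F V)).FG := by
    rw [hspan]
    exact ⟨(Set.finite_range _).toFinset, by rw [Set.Finite.coe_toFinset]⟩
  have hnil : IsNilpotent (RingHom.ker (au F V)) := by
    rw [Ideal.FG.isNilpotent_iff_le_nilradical hfg, hspan, Ideal.span_le]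
    rintro _ ⟨u, rfl⟩
    refine ⟨ℓ ^ k, ?_⟩
    rw [sub_pow_char_pow, one_pow, ← map_pow, ← hk, pow_card_eq_one', map_one, sub_self]
    exact Ideal.zero_mem _
  obtain ⟨N, hN⟩ := hnil
  exact ⟨N, hN⟩

/-- CUG: E(1) is a unit. -/
theorem cug : CugStmt := by
  intro hFVT ℓ _ F Γ B _ _ _ _ _ _ _ γ lam W hsym hnorm hne hp hcomm hfree hlam
  classical
  set c : B := Ee F γ lam 1 with hcdef
  have hinv : ∀ g : Γ, γ g⁻¹ * γ g = 1 := fun g => by rw [← map_mul, inv_mul_cancel, map_one]
  have hinv' : ∀ g : Γ, γ g * γ g⁻¹ = 1 := fun g => by rw [← map_mul, mul_inv_cancel, map_one]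
  have hconj : ∀ h g : Γ, lam (γ (h * g * h⁻¹)) = lam (γ g) := by
    intro h g
    rw [map_mul γ, map_mul γ, hsym, ← mul_assoc, hinv, one_mul]
  have hcγ : ∀ h : Γ, γ h * c = c * γ h := by
    intro h
    show γ h * (∑ g, lam (γ g⁻¹ * 1) • γ g) = (∑ g, lam (γ g⁻¹ * 1) • γ g) * γ h
    rw [Finset.mul_sum, Finset.sum_mul]
    refine Fintype.sum_equiv (MulAut.conj h).toEquiv _ _ ?_
    intro g
    show γ h * (lam (γ g⁻¹ * 1) • γ g) = lam (γ (h * g * h⁻¹)⁻¹ * 1) • γ (h * g * h⁻¹) * γ h
    rw [mul_one, mul_one, mul_smul_comm, smul_mul_assoc, ← map_mul, ← map_mul,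
      inv_mul_cancel_right]
    congr 1
    have : (h * g * h⁻¹)⁻¹ = h * g⁻¹ * h⁻¹ := by group
    rw [this, hconj]
  -- the coset decomposition
  have hbij : Function.Bijective (fun z : (Γ ⧸ W) × W => (z.1.out * (z.2 : Γ) : Γ)) := by
    constructor
    · rintro ⟨q, w⟩ ⟨q', w'⟩ h
      have h' : q.out * (w : Γ) = q'.out * (w' : Γ) := h
      have hq : ∀ (q : Γ ⧸ W) (w : W), (QuotientGroup.mk (q.out * (w : Γ)) : Γ ⧸ W) = q := by
        intro q w
        rw [QuotientGroup.mk_mul_of_mem _ w.2]
        exact QuotientGroup.out_eq' q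
      have h2 : q = q' := by rw [← hq q w, ← hq q' w', h']
      subst h2
      have h3 : (w : Γ) = w' := mul_left_cancel h'
      rw [Subtype.ext h3]
    · intro g
      have h1 : (QuotientGroup.mk g : Γ ⧸ W).out⁻¹ * g ∈ W := by
        rw [← QuotientGroup.eq]
        exact QuotientGroup.out_eq' _
      exact ⟨(QuotientGroup.mk g, ⟨_, h1⟩), mul_inv_cancel_left _ _⟩
  have hinj : ∀ b : B, c * b = 0 → b = 0 := by
    by_contra hcon
    push Not at hcon
    obtain ⟨b0, hb0, hb0'⟩ := hcon
    let ρ : W →* (B →ₗ[F] B) :=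
      { toFun := fun w => LinearMap.mulLeft F (γ w)
        map_one' := by
          ext x
          simp
        map_mul' := by
          intro x y
          ext z
          simp }
    let N : Submodule F B := LinearMap.ker (LinearMap.mulLeft F c)
    have hN : N ≠ ⊥ := by
      intro h
      have h1 : b0 ∈ N := hb0
      rw [h] at h1
      exact hb0' ((Submodule.mem_bot F).1 h1)
    obtain ⟨b, hbN, hb1, hb2⟩ := hFVT ℓ F W B ρ N hp (by
      intro h m hm
      have hm' : c * m = 0 := hm
      show c * (γ h * m) = 0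
      rw [← mul_assoc, ← hcγ, mul_assoc, hm', mul_zero]) hN
    have hfix : ∀ w ∈ W, γ w * b = b := fun w hw => hb2 ⟨w, hw⟩ (Subgroup.mem_top _)
    have hcb : c * b = 0 := hbN
    -- the conjugation trick
    have htw : ∀ t, t ∉ W → ∀ w ∈ W, lam (γ (t * w)⁻¹) = lam (γ t⁻¹) := by
      intro t ht w hw
      let φ : W → W := fun x => ⟨t⁻¹ * x * t * (x : Γ)⁻¹, W.mul_mem (by
        have := hnorm.conj_mem x x.2 t⁻¹
        rwa [inv_inv] at this) (W.inv_mem x.2)⟩
      have hφi : Function.Injective φ := by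
        intro x v hxv
        have h1 : t⁻¹ * x * t * (x : Γ)⁻¹ = t⁻¹ * v * t * (v : Γ)⁻¹ := congrArg Subtype.val hxv
        have hcxv : (x : Γ)⁻¹ * v = v * (x : Γ)⁻¹ := hcomm _ (W.inv_mem x.2) _ v.2
        have h2 : t * ((v : Γ)⁻¹ * x) = ((v : Γ)⁻¹ * x) * t := by
          have h3 : (x : Γ) * t * (x : Γ)⁻¹ = v * t * (v : Γ)⁻¹ := by
            have := congrArg (fun y => t * y) h1
            simpa [mul_assoc] using this
          have h4 : (v : Γ)⁻¹ * x * t = t * ((v : Γ)⁻¹ * x) := by
            calc (v : Γ)⁻¹ * x * t = (v : Γ)⁻¹ * (x * t * (x : Γ)⁻¹) * x := by group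
              _ = (v : Γ)⁻¹ * (v * t * (v : Γ)⁻¹) * x := by rw [h3]
              _ = t * ((v : Γ)⁻¹ * x) := by group
          exact h4.symm
        have h5 := hfree t ht _ (W.mul_mem (W.inv_mem v.2) x.2) h2
        exact Subtype.ext (inv_mul_eq_one.1 h5).symm
      obtain ⟨x, hx⟩ := (Finite.injective_iff_surjective.1 hφi) ⟨w, hw⟩
      have hx' : t⁻¹ * x * t * (x : Γ)⁻¹ = w := congrArg Subtype.val hx
      have h6 : (t * w)⁻¹ = x * t⁻¹ * (x : Γ)⁻¹ := by
        rw [← hx']
        group
      rw [h6, hconj]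
    -- the sum
    have hcard : ((Fintype.card W : ℕ) : F) = 0 := by
      obtain ⟨k, hk⟩ := (IsPGroup.iff_card).1 hp
      rw [Nat.card_eq_fintype_card] at hk
      have hk0 : k ≠ 0 := by
        rintro rfl
        rw [pow_zero] at hk
        apply hne
        rw [← Subgroup.card_eq_one, Nat.card_eq_fintype_card]
        exact hk
      rw [hk, Nat.cast_pow, CharP.cast_eq_zero, zero_pow hk0]
    have hsum : c * b = lam (∑ w : W, γ w) • b := by
      have h1 : c * b = ∑ g, lam (γ g⁻¹) • (γ g * b) := by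
        show (∑ g, lam (γ g⁻¹ * 1) • γ g) * b = _
        rw [Finset.sum_mul]
        refine Finset.sum_congr rfl ?_
        intro g _
        rw [mul_one, smul_mul_assoc]
      rw [h1, ← hbij.sum_comp, Fintype.sum_prod_type, Finset.sum_eq_single (1 : Γ ⧸ W)]
      · have hout : (1 : Γ ⧸ W).out ∈ W := by
          rw [← QuotientGroup.eq_one_iff]
          exact QuotientGroup.out_eq' _
        have h2 : ∀ w : W, lam (γ ((1 : Γ ⧸ W).out * (w : Γ))⁻¹) •
            (γ ((1 : Γ ⧸ W).out * (w : Γ)) * b) =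
            lam (γ ((1 : Γ ⧸ W).out * (w : Γ))⁻¹) • b := by
          intro w
          rw [hfix _ (W.mul_mem hout w.2)]
        rw [Finset.sum_congr rfl (fun w _ => h2 w), ← Finset.sum_smul, map_sum]
        congr 1
        have e : W ≃ W := (Equiv.mulLeft (⟨_, hout⟩ : W)).trans (Equiv.inv W)
        refine Fintype.sum_equiv ((Equiv.mulLeft (⟨_, hout⟩ : W)).trans (Equiv.inv W)) _ _ ?_
        intro w
        rfl
      · intro q _ hq
        have hout : q.out ∉ W := by
          intro h
          apply hq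
          have := (QuotientGroup.eq_one_iff (N := W) q.out).2 h
          rw [← this]
          exact (QuotientGroup.out_eq' q).symm
        have h2 : ∀ w : W, lam (γ (q.out * (w : Γ))⁻¹) • (γ (q.out * (w : Γ)) * b) =
            lam (γ (q.out)⁻¹) • (γ q.out * b) := by
          intro w
          rw [htw _ hout w w.2, map_mul, mul_assoc, hfix _ w.2]
        rw [Finset.sum_congr rfl (fun w _ => h2 w), Finset.sum_const, Finset.card_univ,
          ← Nat.cast_smul_eq_nsmul F, hcard, zero_smul]
      · intro h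
        exact absurd (Finset.mem_univ _) h
    rw [hcb] at hsum
    rw [finsum_eq_sum_of_fintype] at hlam
    rcases smul_eq_zero.1 hsum.symm with h | h
    · exact hlam h
    · exact hb1 h
  -- the inverse
  let L : Submodule F B := Submodule.span F (Set.range γ)
  have hcL : ∀ x ∈ L, c * x ∈ L := by
    intro x hx
    induction hx using Submodule.span_induction with
    | mem x hx =>
      obtain ⟨h, rfl⟩ := hx
      show (∑ g, lam (γ g⁻¹ * 1) • γ g) * γ h ∈ L
      rw [Finset.sum_mul]
      refine Submodule.sum_mem _ ?_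
      intro g _
      rw [smul_mul_assoc, ← map_mul]
      exact Submodule.smul_mem _ _ (Submodule.subset_span ⟨_, rfl⟩)
    | zero =>
      rw [mul_zero]
      exact Submodule.zero_mem _
    | add x y _ _ hx hy =>
      rw [mul_add]
      exact Submodule.add_mem _ hx hy
    | smul r x _ hx =>
      rw [mul_smul_comm]
      exact Submodule.smul_mem _ _ hx
  let T : L →ₗ[F] L := (LinearMap.mulLeft F c).restrict hcL
  have hTi : Function.Injective T := by
    intro x y hxy
    have h1 : c * (x : B) = c * (y : B) := congrArg Subtype.val hxy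
    have h2 : c * ((x : B) - y) = 0 := by rw [mul_sub, h1, sub_self]
    exact Subtype.ext (sub_eq_zero.1 (hinj _ h2))
  have hTs : Function.Surjective T := LinearMap.surjective_of_injective hTi
  have h1L : (1 : B) ∈ L := Submodule.subset_span ⟨1, map_one γ⟩
  obtain ⟨c', hc'⟩ := hTs ⟨1, h1L⟩
  have hr : c * (c' : B) = 1 := congrArg Subtype.val hc'
  refine ⟨c', ?_, hr, ?_, c'.2⟩
  · have h2 : c * ((c' : B) * c - 1) = 0 := by
      rw [mul_sub, ← mul_assoc, hr, one_mul, mul_one, sub_self]
    exact sub_eq_zero.1 (hinj _ h2)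
  · intro g
    have h2 : c * ((c' : B) * γ g - γ g * c') = 0 := by
      rw [mul_sub, ← mul_assoc, hr, one_mul, ← mul_assoc, ← hcγ, mul_assoc, hr, mul_one, sub_self]
    exact sub_eq_zero.1 (hinj _ h2)

end Pool.Agent.PFC.H49d
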