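import Pool.Agent.PFC.StmtsB5a

/-!
# Squad PFC, block B5a, row FVTa (helper46): fixed vectors of `ℓ`-groups
-/

set_option autoImplicit false

noncomputable section

namespace Pool.Agent.PFC.B5a.H46

open Pool.Agent.PFC Pool.Agent.PFC.B5a

section act

variable {F H M : Type} [Field F] [Group H] [AddCommGroup M] [Module F M]

/-- the additive subgroup generated by the orbit of `m` -/
def Sg (ρ : H →* (M →ₗ[F] M)) (m : M) : AddSubgroup M :=
  AddSubgroup.closure (Set.range fun h : H => ρ h m)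

theorem sg_mem (ρ : H →* (M →ₗ[F] M)) (m : M) (h : H) {x : M} (hx : x ∈ Sg ρ m) :
    ρ h x ∈ Sg ρ m := by
  unfold Sg at hx ⊢
  induction hx using AddSubgroup.closure_induction with
  | mem x hx =>
    obtain ⟨g, rfl⟩ := hx
    refine AddSubgroup.subset_closure ⟨h * g, ?_⟩
    simp only [map_mul]
    rfl
  | zero => rw [map_zero]; exact AddSubgroup.zero_mem _
  | add x y _ _ hx hy => rw [map_add]; exact AddSubgroup.add_mem _ hx hy
  | neg x _ hx => rw [map_neg]; exact AddSubgroup.neg_mem _ hx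

/-- the action of `H` on this subgroup -/
@[reducible] def actSg (ρ : H →* (M →ₗ[F] M)) (m : M) : MulAction H (Sg ρ m) where
  smul h x := ⟨ρ h x.1, sg_mem ρ m h x.2⟩
  one_smul x := Subtype.ext (by change ρ 1 x.1 = x.1; rw [map_one]; rfl)
  mul_smul g h x := Subtype.ext (by change ρ (g * h) x.1 = ρ g (ρ h x.1); rw [map_mul]; rfl)

theorem finite_sg {ℓ : ℕ} [Fact ℓ.Prime] [CharP F ℓ] [Finite H] (ρ : H →* (M →ₗ[F] M)) (m : M) :
    Finite (Sg ρ m) := by
  have hl : ∀ x : M, ℓ • x = 0 := by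
    intro x
    rw [← Nat.cast_smul_eq_nsmul F, CharP.cast_eq_zero, zero_smul]
  have hfg : AddGroup.FG (Sg ρ m) := by
    rw [AddGroup.fg_iff_addSubgroup_fg]
    refine (AddSubgroup.fg_iff _).2 ⟨_, rfl, Set.finite_range _⟩
  have ht : AddMonoid.IsTorsion (Sg ρ m) := by
    intro x
    rw [isOfFinAddOrder_iff_nsmul_eq_zero]
    refine ⟨ℓ, (Fact.out : ℓ.Prime).pos, ?_⟩
    refine Subtype.ext ?_
    rw [AddSubgroup.coe_nsmul]
    exact hl x.1
  exact AddCommGroup.finite_of_fg_torsion _ ht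

end act

theorem fvt : FvtStmt := by
  intro ℓ _ F H M _ _ _ _ _ _ ρ N hH hN hne
  obtain ⟨m, hm, hm0⟩ := (Submodule.ne_bot_iff _).1 hne
  have hfin := finite_sg (ℓ := ℓ) ρ m
  have hl : ∀ x : M, ℓ • x = 0 := by
    intro x
    rw [← Nat.cast_smul_eq_nsmul F, CharP.cast_eq_zero, zero_smul]
  have hsub : ∀ x ∈ Sg ρ m, x ∈ N := by
    intro x hx
    have h1 : Sg ρ m ≤ N.toAddSubgroup := by
      unfold Sg
      rw [AddSubgroup.closure_le]
      rintro _ ⟨h, rfl⟩
      exact hN h m hm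
    exact h1 hx
  have hmS : m ∈ Sg ρ m := by
    refine AddSubgroup.subset_closure ⟨1, ?_⟩
    simp only [map_one]
    rfl
  letI := actSg ρ m
  have hdv : ℓ ∣ Nat.card (Sg ρ m) := by
    have h1 : addOrderOf (⟨m, hmS⟩ : Sg ρ m) = ℓ := by
      refine addOrderOf_eq_prime ?_ ?_
      · refine Subtype.ext ?_
        rw [AddSubgroup.coe_nsmul]
        exact hl m
      · intro h0
        exact hm0 (congrArg Subtype.val h0)
    have h2 := addOrderOf_dvd_natCard (⟨m, hmS⟩ : Sg ρ m)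
    rwa [h1] at h2
  have hz : (0 : Sg ρ m) ∈ MulAction.fixedPoints H (Sg ρ m) := by
    intro h
    refine Subtype.ext ?_
    change ρ h 0 = 0
    exact map_zero _
  obtain ⟨b, hb, hb0⟩ := hH.exists_fixed_point_of_prime_dvd_card_of_fixed_point (Sg ρ m) hdv hz
  refine ⟨b.1, hsub b.1 b.2, ?_, ?_⟩
  · intro h0
    exact hb0 (Subtype.ext h0.symm)
  · intro h _
    have h1 := hb h
    exact congrArg Subtype.val h1

end Pool.Agent.PFC.B5a.H46
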