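import Pool.Agent.PFC.StmtsB5b

/-!
Squad PFC, block B5b, rows LSM, SMD (helper49).
-/

namespace Pool.Agent.PFC.H49c

open Pool.Agent.PFC TensorProduct

/-- LSM: N ⊗ A has at most as many simple modules as A if N is a full matrix algebra. -/
theorem lsm (hLSF : LsfStmt) : LsmStmt := by
  intro F N A _ _ _ _ _ _ _ n hn hN
  classical
  obtain ⟨ε⟩ := hN
  have : NeZero n := ⟨hn.ne'⟩
  have : FiniteDimensional F N := Module.Finite.equiv ε.symm.toLinearEquiv
  let E : Fin n → Fin n → N := fun i j => ε.symm (Matrix.single i j 1)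
  have hE : ∀ i j k, E i j * E j k = E i k := by
    intro i j k
    show ε.symm _ * ε.symm _ = ε.symm _
    rw [← map_mul, Matrix.single_mul_single_same, one_mul]
  have hcor : ∀ x : N, E 0 0 * x * E 0 0 = (ε x 0 0) • E 0 0 := by
    intro x
    apply ε.injective
    rw [map_mul, map_mul, map_smul]
    show ε (ε.symm _) * ε x * ε (ε.symm _) = _ • ε (ε.symm _)
    rw [AlgEquiv.apply_symm_apply]
    ext i j
    rw [Matrix.single_mul_mul_single, one_mul, mul_one, Matrix.smul_apply]
    simp only [Matrix.single_apply, smul_eq_mul]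
    split_ifs <;> simp
  let f0 : N →ₗ[F] F :=
    { toFun := fun x => ε x 0 0
      map_add' := fun x y => by rw [map_add, Matrix.add_apply]
      map_smul' := fun c x => by rw [map_smul, Matrix.smul_apply, RingHom.id_apply] }
  let f : N ⊗[F] A →ₗ[F] A := TensorProduct.lid F A ∘ₗ TensorProduct.map f0 LinearMap.id
  let κ : A →ₗ[F] N ⊗[F] A := TensorProduct.mk F N A (E 0 0)
  have hf0 : f0 (E 0 0) = 1 := by
    show ε (ε.symm _) 0 0 = 1
    rw [AlgEquiv.apply_symm_apply, Matrix.single_apply_same]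
  have hfκ : ∀ a, f (κ a) = a := by
    intro a
    show TensorProduct.lid F A (TensorProduct.map f0 LinearMap.id (E 0 0 ⊗ₜ[F] a)) = a
    rw [TensorProduct.map_tmul, TensorProduct.lid_tmul, hf0, one_smul]
    rfl
  have hκf : ∀ z : N ⊗[F] A, (E 0 0 ⊗ₜ[F] (1 : A)) * z * (E 0 0 ⊗ₜ[F] (1 : A)) = κ (f z) := by
    intro z
    induction z using TensorProduct.induction_on with
    | zero => simp
    | tmul x a =>
      rw [Algebra.TensorProduct.tmul_mul_tmul, Algebra.TensorProduct.tmul_mul_tmul, one_mul,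
        mul_one, hcor]
      show _ = E 0 0 ⊗ₜ[F] (TensorProduct.lid F A (TensorProduct.map f0 LinearMap.id (x ⊗ₜ[F] a)))
      rw [TensorProduct.map_tmul, TensorProduct.lid_tmul, TensorProduct.smul_tmul]
      rfl
    | add x y hx hy =>
      rw [mul_add, add_mul, hx, hy, map_add, map_add]
  refine hLSF F (N ⊗[F] A) A (E 0 0 ⊗ₜ[F] (1 : A)) κ ⟨?_, ?_, rfl, ?_⟩ ?_
  · intro a b h
    rw [← hfκ a, ← hfκ b, h]
  · intro a b
    show E 0 0 ⊗ₜ[F] (a * b) = (E 0 0 ⊗ₜ[F] a) * (E 0 0 ⊗ₜ[F] b)
    rw [Algebra.TensorProduct.tmul_mul_tmul, hE]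
  · intro z h1 h2
    refine ⟨f z, ?_⟩
    rw [← hκf, h1, h2]
  · have h1 : (1 : N ⊗[F] A) = ∑ i : Fin n, (E i 0 ⊗ₜ[F] (1 : A)) * (E 0 0 ⊗ₜ[F] (1 : A)) *
        (E 0 i ⊗ₜ[F] (1 : A)) := by
      have h2 : ∀ i : Fin n, (E i 0 ⊗ₜ[F] (1 : A)) * (E 0 0 ⊗ₜ[F] (1 : A)) *
        (E 0 i ⊗ₜ[F] (1 : A)) = (E i i) ⊗ₜ[F] (1 : A) := by
        intro i
        rw [Algebra.TensorProduct.tmul_mul_tmul, Algebra.TensorProduct.tmul_mul_tmul, hE, hE,
          one_mul, one_mul]
      rw [Finset.sum_congr rfl (fun i _ => h2 i), ← TensorProduct.sum_tmul]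
      have h3 : ∑ i : Fin n, E i i = 1 := by
        show ∑ i : Fin n, ε.symm (Matrix.single i i 1) = 1
        rw [← map_sum]
        have h4 : ∑ i : Fin n, Matrix.single i i (1 : F) = 1 := by
          ext i j
          rw [Matrix.sum_apply, Matrix.one_apply]
          simp only [Matrix.single_apply]
          split_ifs with h
          · subst h
            simp
          · apply Finset.sum_eq_zero
            intro k _
            rw [if_neg]
            rintro ⟨rfl, rfl⟩
            exact h rfl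
        rw [h4, map_one]
      rw [h3]
      rfl
    rw [h1]
    refine Submodule.sum_mem _ ?_
    intro i _
    exact Submodule.subset_span ⟨_, _, rfl⟩

/-- SMD: a homomorphism of the semidirect product. -/
theorem smd : SmdStmt := by
  intro V E A _ _ _ _ φ e0 α y hgen hy hord
  classical
  have hpos : 0 < Nat.card E := Nat.card_pos
  let yu : Aˣ :=
    { val := y
      inv := y ^ (Nat.card E - 1)
      val_inv := by
        rw [← pow_succ', Nat.sub_add_cancel hpos, hord]
      inv_val := by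
        rw [← pow_succ, Nat.sub_add_cancel hpos, hord] }
  have hyu : yu ^ Nat.card E = 1 := by
    ext
    rw [Units.val_pow_eq_pow_val, Units.val_one]
    exact hord
  let fn : V →* Aˣ := MonoidHom.toHomUnits α
  have ho : orderOf yu ∣ orderOf e0 := by
    rw [orderOf_eq_card_of_forall_mem_zpowers hgen]
    exact orderOf_dvd_of_pow_eq_one hyu
  let fg : E →* Aˣ := monoidHomOfForallMemZpowers hgen ho
  have hfg : fg e0 = yu := monoidHomOfForallMemZpowers_apply_gen hgen ho
  have hone : ∀ u, fn (φ e0 u) = yu * fn u * yu⁻¹ := by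
    intro u
    rw [eq_mul_inv_iff_mul_eq]
    ext
    exact (hy u).symm
  have hall : ∀ (k : ℕ) (u : V), fn (φ (e0 ^ k) u) = fg (e0 ^ k) * fn u * (fg (e0 ^ k))⁻¹ := by
    intro k
    induction k with
    | zero =>
      intro u
      simp
    | succ k ih =>
      intro u
      rw [pow_succ', map_mul, MulAut.mul_apply, hone, ih, map_mul, hfg]
      group
  have hh : ∀ g : E, fn.comp (φ g).toMonoidHom = (MulAut.conj (fg g)).toMonoidHom.comp fn := by
    intro g
    obtain ⟨k, hk⟩ := mem_powers_iff_mem_zpowers.2 (hgen g)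
    ext u
    have h1 := hall k u
    have hk' : e0 ^ k = g := hk
    rw [hk'] at h1
    show ((fn (φ g u) : Aˣ) : A) = ((fg g * fn u * (fg g)⁻¹ : Aˣ) : A)
    rw [h1]
  refine ⟨(Units.coeHom A).comp (SemidirectProduct.lift fn fg hh), ?_, ?_⟩
  · intro u
    rw [MonoidHom.comp_apply, SemidirectProduct.lift_inl]
    rfl
  · rw [MonoidHom.comp_apply, SemidirectProduct.lift_inr, hfg]
    rfl

end Pool.Agent.PFC.H49c
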