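import Pool.Agent.PFC.StmtsB5d

/-!
# Squad PFC, block B5d, row QMW (helper46): the Moebius function of the subgroups not in `W`
-/

set_option autoImplicit false

open scoped BigOperators Classical

noncomputable section

namespace Pool.Agent.PFC.B5c.H46

open Pool.Agent.PFC Pool.Agent.PFC.B5c

section poset

variable {V : Type} [CommGroup V] [Finite V]

/-- the finite type of the subgroups -/
@[reducible] def fts (V : Type) [CommGroup V] [Finite V] : Fintype (Subgroup V) := Fintype.ofFinite _

attribute [local instance] fts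

/-- the function `c` of the docstring -/
def cW (W : Subgroup V) : Subgroup V → ℤ :=
  (wellFounded_lt (α := Subgroup V)).fix fun S c =>
    if S ≤ W then 0 else
      1 - ∑ Q : {Q : Subgroup V // Q < S}, c Q.1 Q.2

theorem cW_eq (W S : Subgroup V) :
    cW W S = if S ≤ W then 0 else 1 - ∑ Q : {Q : Subgroup V // Q < S}, cW W Q.1 := by
  unfold cW
  rw [WellFounded.fix_eq]

theorem sum_lt (g : Subgroup V → ℤ) (S : Subgroup V) :
    ∑ Q : {Q : Subgroup V // Q < S}, g Q.1 = ∑ Q with Q < S, g Q := by
  rw [← Finset.sum_subtype]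
  intro x
  simp

theorem cW_zero {W S : Subgroup V} (h : S ≤ W) : cW W S = 0 := by
  rw [cW_eq, if_pos h]

theorem cW_lt {W S : Subgroup V} (h : ¬ S ≤ W) : cW W S = 1 - ∑ Q with Q < S, cW W Q := by
  rw [cW_eq, if_neg h, sum_lt]

theorem split_le (g : Subgroup V → ℤ) (S : Subgroup V) :
    ∑ Q with Q ≤ S, g Q = g S + ∑ Q with Q < S, g Q := by
  have h1 : (Finset.univ.filter fun Q : Subgroup V => Q ≤ S) =
      insert S (Finset.univ.filter fun Q : Subgroup V => Q < S) := by
    ext Q
    simp only [Finset.mem_filter, Finset.mem_univ, true_and, Finset.mem_insert]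
    exact le_iff_eq_or_lt
  rw [h1, Finset.sum_insert]
  simp

theorem cW_le {W S : Subgroup V} (h : ¬ S ≤ W) : ∑ Q with Q ≤ S, cW W Q = 1 := by
  rw [split_le, cW_lt h]
  ring

theorem cW_map (W : Subgroup V) (σ : MulAut V) (hW : W.map σ.toMonoidHom = W) (S : Subgroup V) :
    cW W (S.map σ.toMonoidHom) = cW W S := by
  have hinj : Function.Injective σ.toMonoidHom := σ.injective
  have hle : ∀ A B : Subgroup V, A.map σ.toMonoidHom ≤ B.map σ.toMonoidHom ↔ A ≤ B :=
    fun A B => Subgroup.map_le_map_iff_of_injective hinj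
  have hsur : ∀ B : Subgroup V, ∃ A : Subgroup V, A.map σ.toMonoidHom = B := by
    intro B
    refine ⟨B.comap σ.toMonoidHom, ?_⟩
    exact Subgroup.map_comap_eq_self_of_surjective σ.surjective B
  induction S using WellFoundedLT.induction with
  | ind S ih =>
    have hS : S.map σ.toMonoidHom ≤ W ↔ S ≤ W := by
      conv_lhs => rw [← hW]
      exact hle S W
    by_cases h : S ≤ W
    · rw [cW_zero h, cW_zero (hS.2 h)]
    · rw [cW_lt h, cW_lt (fun h' => h (hS.1 h'))]
      congr 1
      symm
      refine Finset.sum_bij (fun Q _ => Q.map σ.toMonoidHom) ?_ ?_ ?_ ?_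
      · intro Q hQ
        simp only [Finset.mem_filter, Finset.mem_univ, true_and] at hQ ⊢
        rw [lt_iff_le_not_ge] at hQ ⊢
        exact ⟨(hle _ _).2 hQ.1, fun h' => hQ.2 ((hle _ _).1 h')⟩
      · intro A _ B _ hAB
        exact Subgroup.map_injective hinj hAB
      · intro B hB
        obtain ⟨A, rfl⟩ := hsur B
        simp only [Finset.mem_filter, Finset.mem_univ, true_and] at hB
        refine ⟨A, ?_, rfl⟩
        simp only [Finset.mem_filter, Finset.mem_univ, true_and]
        rw [lt_iff_le_not_ge] at hB ⊢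
        exact ⟨(hle _ _).1 hB.1, fun h' => hB.2 ((hle _ _).2 h')⟩
      · intro Q hQ
        simp only [Finset.mem_filter, Finset.mem_univ, true_and] at hQ
        exact (ih Q hQ).symm

/-- the function `f` of the docstring -/
def fW (W R S : Subgroup V) : ℤ := ∑ Q with Q ⊔ R = S, cW W Q

theorem fW_not {W R S : Subgroup V} (h : ¬ R ≤ S) : fW W R S = 0 := by
  unfold fW
  rw [Finset.filter_eq_empty_iff.2, Finset.sum_empty]
  intro Q _ hQ
  exact h (hQ ▸ le_sup_right)

theorem fW_sum {W R S : Subgroup V} (hR : ¬ R ≤ W) (h : R ≤ S) :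
    ∑ T with T ≤ S, fW W R T = 1 := by
  have hS : ¬ S ≤ W := fun h' => hR (h.trans h')
  rw [← cW_le hS]
  unfold fW
  have hm : ∀ Q ∈ (Finset.univ.filter fun Q : Subgroup V => Q ≤ S),
      Q ⊔ R ∈ (Finset.univ.filter fun T : Subgroup V => T ≤ S) := by
    intro Q hQ
    simp only [Finset.mem_filter, Finset.mem_univ, true_and] at hQ ⊢
    exact sup_le hQ h
  rw [← Finset.sum_fiberwise_of_maps_to hm (cW W)]
  refine Finset.sum_congr rfl fun T hT => ?_
  refine Finset.sum_congr ?_ fun _ _ => rfl
  ext Q
  simp only [Finset.mem_filter, Finset.mem_univ, true_and] at hT ⊢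
  constructor
  · intro hQ
    exact ⟨(le_sup_left.trans hQ.le).trans hT, hQ⟩
  · rintro ⟨_, hQ⟩
    exact hQ

theorem fW_val {W R : Subgroup V} (hR : ¬ R ≤ W) (S : Subgroup V) :
    fW W R S = if S = R then 1 else 0 := by
  induction S using WellFoundedLT.induction with
  | ind S ih =>
    by_cases h : R ≤ S
    · have h1 := fW_sum (W := W) hR h
      rw [split_le] at h1
      have h2 : ∑ T with T < S, fW W R T = ∑ T with T < S, (if T = R then (1 : ℤ) else 0) := by
        refine Finset.sum_congr rfl fun T hT => ih T ?_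
        simpa using hT
      rw [h2, Finset.sum_ite_eq'] at h1
      by_cases h3 : S = R
      · rw [if_pos h3]
        rw [if_neg] at h1
        · linarith
        · rw [h3]
          simp
      · rw [if_neg h3]
        rw [if_pos] at h1
        · linarith
        · simp only [Finset.mem_filter, Finset.mem_univ, true_and]
          exact lt_of_le_of_ne h (Ne.symm h3)
    · rw [fW_not h, if_neg]
      intro h'
      exact h h'.ge

theorem fin_eq (W R S : Subgroup V) :
    ∑ᶠ Q ∈ {Q : Subgroup V | ¬ Q ≤ W ∧ Q ⊔ R = S}, - cW W Q = - fW W R S := by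
  rw [finsum_mem_eq_finite_toFinset_sum _ (Set.toFinite _), Finset.sum_neg_distrib]
  congr 1
  unfold fW
  refine Finset.sum_subset ?_ ?_
  · intro Q hQ
    simp only [Set.Finite.mem_toFinset, Set.mem_ofPred_eq] at hQ
    simp only [Finset.mem_filter, Finset.mem_univ, true_and]
    exact hQ.2
  · intro Q hQ hQ'
    simp only [Finset.mem_filter, Finset.mem_univ, true_and] at hQ
    simp only [Set.Finite.mem_toFinset, Set.mem_ofPred_eq] at hQ'
    refine cW_zero ?_
    by_contra h
    exact hQ' ⟨h, hQ⟩

end poset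

theorem qmw : QmwStmt := by
  intro V _ _ W
  refine ⟨fun Q => - cW W Q, ?_, ?_⟩
  · intro σ hσ Q
    change - cW W (Q.map σ.toMonoidHom) = - cW W Q
    rw [cW_map W σ hσ Q]
  · intro R S hR
    constructor
    · intro h
      rw [fin_eq, fW_val hR, if_pos h]
    · intro h
      rw [fin_eq, fW_val hR, if_neg h, neg_zero]

end Pool.Agent.PFC.B5c.H46
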